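import Pool.Agent.H15.FLX.Targets

/-!
MP_c62aed_lc (FixedLinesSETH), row KRX of the board flx_modules: the kernels of a real function
form a chain.
-/

set_option autoImplicit false

namespace Pool.Agent.H15.FLX

open Finset
open Pool.Agent.H53.MC (Ker)

theorem pf_KRX : T_KRX := by
  intro n M k g r w f i
  have h1 : ∀ B B' : Finset (Fin n → Bool), B ⊆ B' → Ker g r w B ⊆ Ker g r w B' := by
    intro B B' hB p hp
    exact ⟨hp.1, fun T hT hc => hp.2 T hT fun x hx => hc x (hB hx)⟩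
  have hmono : ∀ a b : ℝ, a ≤ b → BR (ER g r w f i) (f i) a ⊆ BR (ER g r w f i) (f i) b := by
    intro a b hab x hx
    unfold BR at hx ⊢
    rw [mem_filter] at hx ⊢
    exact ⟨hx.1, hx.2.1, hx.2.2.trans_le hab⟩
  refine ⟨?_, ?_⟩
  · rintro K ⟨a, rfl⟩ K' ⟨b, rfl⟩ _
    rcases le_total a b with hab | hab
    · exact Or.inl (h1 _ _ (hmono a b hab))
    · exact Or.inr (h1 _ _ (hmono b a hab))
  · rintro K ⟨a, rfl⟩ p hp
    exact hp.1

end Pool.Agent.H15.FLX
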