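import Pool.Agent.H15.FLX.Targets

/-!
MP_c62aed_lc (FixedLinesSETH), row DL of the board flx_modules: derivations from the set of the
clauses are derivations from the tuple of the clauses.
-/

set_option autoImplicit false

namespace Pool.Agent.H15.FLX

open Finset
open Pool.Agent.H53.MC (Clause Line)

theorem pf_DL : T_DL := by
  intro n m G 𝓛 t L hD
  induction hD with
  | step L P T h1 h2 _ h4 h5 h6 ih =>
    exact Pool.Agent.H53.MC.Derives.step L P T h1 h2 ih h4 (fun c hc => h5 c hc) h6

end Pool.Agent.H15.FLX
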